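import Pool.Agent.Blowup.Reduce

set_option autoImplicit false

open Filter Topology Set

namespace Pool.Agent.Results.MP_9a8732_an.UniqueBlowup

/-- The Euclidean plane. -/
abbrev Plane : Type := EuclideanSpace ℝ (Fin 2)

/-- Near the point `p`, the set `D` is, after a linear isometry `R`, the region above the graph of
a Lipschitz function `g`. -/
def LipschitzAt (D : Set Plane) (p : Plane) : Prop :=
  ∃ ρ : ℝ, 0 < ρ ∧ ∃ R : Plane ≃ₗᵢ[ℝ] Plane, ∃ g : ℝ → ℝ, ∃ L : NNReal, LipschitzWith L g ∧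
    ∀ x ∈ Metric.ball p ρ, (x ∈ D ↔ g (R (x - p) 0) < R (x - p) 1)

/-- `u` is a `C¹` weak solution of `Δ u = x₁ χ_D` in the disc `B₂`: for every `C¹` function `φ`
with compact support in `B₂`, `∫ ∇u · ∇φ = - ∫ x₁ χ_D φ`. -/
def WeakSolution (D : Set Plane) (u : Plane → ℝ) : Prop :=
  ContDiffOn ℝ 1 u (Metric.ball 0 2) ∧
    ∀ φ : Plane → ℝ, ContDiff ℝ 1 φ → HasCompactSupport φ → tsupport φ ⊆ Metric.ball 0 2 →
      ∫ x, (∑ i : Fin 2, fderiv ℝ u x (EuclideanSpace.single i 1) *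
        fderiv ℝ φ x (EuclideanSpace.single i 1)) =
      - ∫ x : Plane, x 0 * D.indicator (fun _ => (1 : ℝ)) x * φ x

/-- Let `D` be an open set with `0 ∈ ∂D` that is a Lipschitz epigraph near `0`, and let `u` be a
`C¹` weak solution of `Δ u = x₁ χ_D` in `B₂` that vanishes on `B₂ \ closure D`. Then the cubic
rescalings `u (r x) / r³` converge locally uniformly as `r → 0+`. -/
theorem result : ∀ (D : Set Plane) (u : Plane → ℝ), IsOpen D → (0 : Plane) ∈ frontier D →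
    LipschitzAt D 0 → WeakSolution D u →
    (∀ x ∈ Metric.ball (0 : Plane) 2, x ∉ closure D → u x = 0) →
    ∃ u₀ : Plane → ℝ,
      TendstoLocallyUniformly (fun (r : ℝ) x => u (r • x) / r ^ 3) u₀ (𝓝[>] 0) := by
  intro D u hDo h0 hfr hu hzero
  obtain ⟨T, g, L, δ, ω, H, hd, hu0⟩ :=
    Pool.Agent.Blowup.reduce D u hDo hfr h0 hu.1 hu.2 hzero
  -- uniform Cauchy property
  have hcau : ∀ R ε : ℝ, 0 < R → 0 < ε → ∃ r0 > 0, ∀ r s : ℝ, 0 < r → r < r0 → 0 < s → s < r0 →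
      ∀ x : Plane, ‖x‖ ≤ R → |u (r • x) / r ^ 3 - u (s • x) / s ^ 3| ≤ ε := by
    intro R ε hR hε
    obtain ⟨r0, hr0, h⟩ := Pool.Agent.Blowup.blow_unif (R := R) (ε := ε) H hd
      (by simpa using hu0) hR hε
    refine ⟨r0, hr0, fun r s hr hr' hs hs' x hx => ?_⟩
    have h3 := h r s hr hr' hs hs' (T x) (by rw [T.norm_map]; exact hx)
    have h4 : ∀ t : ℝ, T.symm ((t : ℂ) * T x) = t • x := by
      intro t
      have : ((t : ℂ) * T x) = T (t • x) := by
        rw [map_smul]; simp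
      rw [this, LinearIsometryEquiv.symm_apply_apply]
    simpa only [h4] using h3
  -- pointwise limits
  have hlim : ∀ x : Plane, ∃ y : ℝ, Tendsto (fun r : ℝ => u (r • x) / r ^ 3) (𝓝[>] 0) (𝓝 y) := by
    intro x
    apply cauchy_map_iff_exists_tendsto.1
    rw [Metric.cauchy_iff]
    refine ⟨inferInstance, fun ε hε => ?_⟩
    obtain ⟨r0, hr0, h⟩ := hcau (‖x‖ + 1) (ε / 2) (by positivity) (by positivity)
    refine ⟨(fun r : ℝ => u (r • x) / r ^ 3) '' Ioo 0 r0, image_mem_map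
      (Ioo_mem_nhdsGT hr0), ?_⟩
    rintro _ ⟨r, hr, rfl⟩ _ ⟨s, hs, rfl⟩
    rw [Real.dist_eq]
    have := h r s hr.1 hr.2 hs.1 hs.2 x (by linarith)
    linarith
  choose u₀ hu₀ using hlim
  refine ⟨u₀, ?_⟩
  rw [Metric.tendstoLocallyUniformly_iff]
  intro ε hε x
  obtain ⟨r0, hr0, h⟩ := hcau (‖x‖ + 1) (ε / 2) (by positivity) (by positivity)
  refine ⟨Metric.ball x 1, Metric.ball_mem_nhds x one_pos, ?_⟩
  filter_upwards [Ioo_mem_nhdsGT hr0] with r hr y hy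
  have hy' : ‖y‖ ≤ ‖x‖ + 1 := by
    have h1 : ‖y - x‖ < 1 := by simpa [dist_eq_norm] using hy
    have h2 : ‖y‖ ≤ ‖x‖ + ‖y - x‖ := by
      have := norm_add_le x (y - x)
      rwa [add_sub_cancel] at this
    linarith
  have h1 : Tendsto (fun s : ℝ => |u (s • y) / s ^ 3 - u (r • y) / r ^ 3|) (𝓝[>] 0)
      (𝓝 |u₀ y - u (r • y) / r ^ 3|) := ((hu₀ y).sub_const _).abs
  have h2 : |u₀ y - u (r • y) / r ^ 3| ≤ ε / 2 := by
    apply le_of_tendsto h1
    filter_upwards [Ioo_mem_nhdsGT hr0] with s hs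
    exact h s r hs.1 hs.2 hr.1 hr.2 y hy'
  rw [Real.dist_eq]
  linarith

end Pool.Agent.Results.MP_9a8732_an.UniqueBlowup
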